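import Pool.Agent.N928.EA.Stm

/-!
# A vertex is good with probability at least one half
-/

set_option autoImplicit false

open MeasureTheory ProbabilityTheory

namespace Pool.Agent.N42.EA

open Pool.Agent.N928.EA

section Mgf

variable {ι : Type}

lemma meas_one (i : ι) : Measurable (fun Y : ι → Bool => sg (Y i)) :=
  (measurable_of_finite sg).comp (measurable_pi_apply i)

lemma mgf_one (i : ι) (t : ℝ) :
    mgf (fun Y : ι → Bool => sg (Y i)) (unif ι) t = Real.cosh t := by
  have h2 : (unif ι).map (fun Y : ι → Bool => Y i) = (PMF.uniformOfFintype Bool).toMeasure := by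
    unfold unif
    exact Measure.infinitePi_map_eval (fun _ => (PMF.uniformOfFintype Bool).toMeasure) i
  have h1 : mgf (fun Y : ι → Bool => sg (Y i)) (unif ι) t =
      ∫ b, Real.exp (t * sg b) ∂((unif ι).map (fun Y : ι → Bool => Y i)) := by
    rw [integral_map (measurable_pi_apply i).aemeasurable
      (measurable_of_finite _).aestronglyMeasurable]
    rfl
  rw [h1, h2, PMF.integral_eq_sum]
  simp only [PMF.uniformOfFintype_apply, Fintype.card_bool, Fintype.sum_bool, sg,
    Real.cosh_eq, smul_eq_mul, if_true, mul_one, Bool.false_eq_true, if_false, mul_neg]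
  have h3 : ((((2 : ℕ) : ENNReal))⁻¹).toReal = 1 / 2 := by
    rw [ENNReal.toReal_inv]
    norm_num
  rw [h3]
  ring

lemma mgf_all (B : Finset ι) (t : ℝ) :
    mgf (fun Y : ι → Bool => ∑ i ∈ B, sg (Y i)) (unif ι) t = Real.cosh t ^ B.card := by
  have h1 : iIndepFun (fun (i : ι) (Y : ι → Bool) => sg (Y i)) (unif ι) := by
    unfold unif
    exact iIndepFun_infinitePi (X := fun _ b => sg b) (fun _ => measurable_of_finite _)
  have h2 := h1.mgf_sum (t := t) (fun i => meas_one i) B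
  have h3 : (∑ i ∈ B, fun Y : ι → Bool => sg (Y i)) = fun Y : ι → Bool => ∑ i ∈ B, sg (Y i) := by
    funext Y
    rw [Finset.sum_apply]
  rw [h3] at h2
  rw [h2, Finset.prod_congr rfl fun i _ => mgf_one i t, Finset.prod_const]

lemma abs_sg (b : Bool) : |sg b| = 1 := by
  cases b <;> simp [sg]

lemma meas_sum (B : Finset ι) : Measurable fun Y : ι → Bool => ∑ i ∈ B, sg (Y i) :=
  Finset.measurable_sum _ fun i _ => meas_one i

/-- Lower tail of a sum of independent signs. -/
lemma tail (B : Finset ι) {a lam : ℝ} (hl : 0 ≤ lam) :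
    (unif ι).real {Y | ∑ i ∈ B, sg (Y i) ≤ -a} ≤
      Real.exp (-(lam * a) + lam ^ 2 / 2 * B.card) := by
  have hint : Integrable (fun Y : ι → Bool => Real.exp (-lam * ∑ i ∈ B, sg (Y i)))
      (unif ι) := by
    refine Integrable.of_bound (C := Real.exp (lam * B.card))
      ((meas_sum B).const_mul _).exp.aestronglyMeasurable
      (Filter.Eventually.of_forall fun Y => ?_)
    rw [Real.norm_eq_abs, Real.abs_exp]
    apply Real.exp_le_exp.2
    have h1 : |∑ i ∈ B, sg (Y i)| ≤ B.card := by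
      refine (Finset.abs_sum_le_sum_abs _ _).trans ?_
      rw [Finset.sum_congr rfl fun i _ => abs_sg (Y i)]
      simp
    have h2 := (abs_le.1 h1).1
    nlinarith
  have h1 := measure_le_le_exp_mul_mgf (μ := unif ι)
    (X := fun Y : ι → Bool => ∑ i ∈ B, sg (Y i)) (t := -lam) (-a) (by linarith) hint
  refine h1.trans ?_
  rw [mgf_all, Real.cosh_neg]
  have h2 : Real.cosh lam ^ B.card ≤ Real.exp (lam ^ 2 / 2 * B.card) := by
    calc Real.cosh lam ^ B.card ≤ (Real.exp (lam ^ 2 / 2)) ^ B.card :=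
          pow_le_pow_left₀ (Real.cosh_pos _).le (Real.cosh_le_exp_half_sq _) _
      _ = _ := by rw [← Real.exp_nat_mul, mul_comm]
  calc Real.exp (-(-lam) * -a) * Real.cosh lam ^ B.card
      ≤ Real.exp (-(-lam) * -a) * Real.exp (lam ^ 2 / 2 * B.card) := by gcongr
    _ = _ := by
      rw [← Real.exp_add]
      congr 1
      ring

end Mgf

section XA

variable {k : ℕ} {W : Type} (H : SimpleGraph W) [H.LocallyFinite]

open Classical in
/-- `XA` is a sum of different coordinates. -/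
lemma XA_eq (A : Finset (PV k W)) : ∃ B : Finset (List (Fin k) × H.edgeSet),
    B.card ≤ ∑ x ∈ A, H.degree x.2 ∧ ∀ Y, XA H Y A = ∑ i ∈ B, sg (Y i) := by
  set S : Finset ((_ : PV k W) × W) :=
    A.sigma fun x => (H.neighborFinset x.2).filter (fun y => (x.1, y) ∉ A) with hS
  have hmem : ∀ p ∈ S, p.1 ∈ A ∧ H.Adj p.1.2 p.2 ∧ (p.1.1, p.2) ∉ A := by
    intro p hp
    rw [hS, Finset.mem_sigma, Finset.mem_filter, SimpleGraph.mem_neighborFinset] at hp
    exact hp
  let f : {p // p ∈ S} → List (Fin k) × H.edgeSet := fun p =>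
    (p.1.1.1, ⟨s(p.1.1.2, p.1.2), (hmem p.1 p.2).2.1⟩)
  have hf : Function.Injective f := by
    rintro ⟨⟨⟨t, h⟩, h'⟩, hp⟩ ⟨⟨⟨t₂, g⟩, g'⟩, hp₂⟩ heq
    obtain ⟨a1, a2, a3⟩ := hmem _ hp
    obtain ⟨b1, b2, b3⟩ := hmem _ hp₂
    simp only [f, Prod.mk.injEq, Subtype.mk.injEq, Sym2.eq_iff] at heq
    obtain ⟨rfl, h1 | h1⟩ := heq
    · obtain ⟨rfl, rfl⟩ := h1
      rfl
    · obtain ⟨rfl, rfl⟩ := h1
      exact absurd a1 b3
  refine ⟨S.attach.map ⟨f, hf⟩, ?_, fun Y => ?_⟩
  · rw [Finset.card_map, Finset.card_attach, hS, Finset.card_sigma]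
    refine Finset.sum_le_sum fun x _ => ?_
    refine (Finset.card_filter_le _ _).trans ?_
    rw [SimpleGraph.card_neighborFinset_eq_degree]
  · rw [Finset.sum_map]
    have h1 : ∀ p : {p // p ∈ S}, sg (Y ((⟨f, hf⟩ : _ ↪ _) p)) =
        yv H Y p.1.1.1 p.1.1.2 p.1.2 := by
      intro p
      rw [yv, dif_pos (hmem p.1 p.2).2.1]
      rfl
    rw [Finset.sum_congr rfl fun p _ => h1 p,
      Finset.sum_attach S (fun p => yv H Y p.1.1 p.1.2 p.2), hS, Finset.sum_sigma]
    rfl

lemma meas_XA (A : Finset (PV k W)) :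
    Measurable fun Y : List (Fin k) × H.edgeSet → Bool => XA H Y A := by
  obtain ⟨B, -, hB⟩ := XA_eq (k := k) H A
  have h1 : (fun Y : List (Fin k) × H.edgeSet → Bool => XA H Y A) =
      fun Y => ∑ i ∈ B, sg (Y i) := funext hB
  rw [h1]
  exact meas_sum B

lemma bad_bound {D : ℕ} (hD : 1 ≤ D) (hdeg : ∀ h, H.degree h ≤ D) (hk : 2 ≤ k)
    (A : Finset (PV k W)) :
    unif (List (Fin k) × H.edgeSet) {Y | XA H Y A < -((k : ℝ) - 2) * A.card} ≤
      ENNReal.ofReal (Real.exp (-(((k : ℝ) - 2) ^ 2 / (2 * D))) ^ A.card) := by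
  obtain ⟨B, hB1, hB⟩ := XA_eq (k := k) H A
  have hD' : (0 : ℝ) < D := by exact_mod_cast hD
  have hk' : (0 : ℝ) ≤ (k : ℝ) - 2 := by
    have : (2 : ℝ) ≤ k := by exact_mod_cast hk
    linarith
  have hBc : (B.card : ℝ) ≤ D * A.card := by
    have h1 : B.card ≤ D * A.card := hB1.trans (by
      rw [mul_comm, ← smul_eq_mul]
      exact Finset.sum_le_card_nsmul _ _ _ fun x _ => hdeg x.2)
    exact_mod_cast h1
  have h1 := tail B (a := ((k : ℝ) - 2) * A.card) (lam := ((k : ℝ) - 2) / D)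
    (div_nonneg hk' hD'.le)
  have h2 : unif (List (Fin k) × H.edgeSet) {Y | XA H Y A < -((k : ℝ) - 2) * A.card} ≤
      unif (List (Fin k) × H.edgeSet) {Y | ∑ i ∈ B, sg (Y i) ≤ -(((k : ℝ) - 2) * A.card)} := by
    apply measure_mono
    intro Y hY
    have h3 : XA H Y A < -((k : ℝ) - 2) * A.card := hY
    have h4 : ∑ i ∈ B, sg (Y i) ≤ -(((k : ℝ) - 2) * A.card) := by
      rw [← hB Y]
      linarith
    exact h4
  refine h2.trans ?_
  rw [← ofReal_measureReal]
  apply ENNReal.ofReal_le_ofReal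
  refine h1.trans ?_
  rw [← Real.exp_nat_mul]
  apply Real.exp_le_exp.2
  have h5 : (((k : ℝ) - 2) / D) ^ 2 / 2 * B.card ≤ (((k : ℝ) - 2) / D) ^ 2 / 2 * (D * A.card) :=
    mul_le_mul_of_nonneg_left hBc (by positivity)
  refine (add_le_add_right h5 _).trans (le_of_eq ?_)
  field_simp
  ring

end XA

section Deg

variable {k : ℕ} {W : Type} (H : SimpleGraph W) [H.LocallyFinite]

lemma kt_deg (a : List (Fin k)) : (kt k).degree a ≤ k + 1 := by
  classical
  rw [← SimpleGraph.card_neighborFinset_eq_degree]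
  have h1 : (kt k).neighborFinset a ⊆
      (Finset.univ.image fun i : Fin k => i :: a) ∪ {a.tail} := by
    intro b hb
    rw [SimpleGraph.mem_neighborFinset] at hb
    rw [Finset.mem_union, Finset.mem_image, Finset.mem_singleton]
    rcases hb with ⟨i, h⟩ | ⟨i, h⟩
    · left
      exact ⟨i, Finset.mem_univ _, h.symm⟩
    · right
      rw [h]
      simp
  refine (Finset.card_le_card h1).trans ((Finset.card_union_le _ _).trans ?_)
  rw [Finset.card_singleton]
  refine Nat.add_le_add_right (Finset.card_image_le.trans ?_) 1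
  rw [Finset.card_univ, Fintype.card_fin]

lemma pg_deg {D : ℕ} (hdeg : ∀ h, H.degree h ≤ D) (x : PV k W) :
    (PG k H).degree x ≤ k + 1 + D := by
  rw [SimpleGraph.degree_boxProd]
  exact Nat.add_le_add (kt_deg x.1) (hdeg x.2)

end Deg

/-- **A vertex is good with probability at least one half.** -/
theorem t_BAD (hC : St_CNT) : St_BAD := by
  classical
  intro k W _ H _ D hD hk hdeg hbig w h₀
  refine ⟨?_, ?_⟩
  · have h1 : {Y | Good H w h₀ Y} = ⋂ A : Finset (PV k W),
        {Y : List (Fin k) × H.edgeSet → Bool | (w, h₀) ∈ A → (∀ x ∈ A, w <:+ x.1) →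
          ((PG k H).induce (A : Set (PV k W))).Connected →
            -((k : ℝ) - 2) * A.card ≤ XA H Y A} := by
      ext Y
      rw [Set.mem_iInter]
      exact Iff.rfl
    rw [h1]
    refine MeasurableSet.iInter fun A => ?_
    by_cases h2 : (w, h₀) ∈ A ∧ (∀ x ∈ A, w <:+ x.1) ∧
        ((PG k H).induce (A : Set (PV k W))).Connected
    · have h3 : {Y : List (Fin k) × H.edgeSet → Bool | (w, h₀) ∈ A → (∀ x ∈ A, w <:+ x.1) →
          ((PG k H).induce (A : Set (PV k W))).Connected →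
            -((k : ℝ) - 2) * A.card ≤ XA H Y A} =
          {Y | -((k : ℝ) - 2) * A.card ≤ XA H Y A} := by
        ext Y
        exact ⟨fun h => h h2.1 h2.2.1 h2.2.2, fun h _ _ _ => h⟩
      rw [h3]
      exact measurableSet_le measurable_const (meas_XA H A)
    · have h3 : {Y : List (Fin k) × H.edgeSet → Bool | (w, h₀) ∈ A → (∀ x ∈ A, w <:+ x.1) →
          ((PG k H).induce (A : Set (PV k W))).Connected →
            -((k : ℝ) - 2) * A.card ≤ XA H Y A} = Set.univ := by
        ext Y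
        refine ⟨fun _ => trivial, fun _ a b c => absurd ⟨a, b, c⟩ h2⟩
      rw [h3]
      exact MeasurableSet.univ
  · set q : ℝ := Real.exp (-(((k : ℝ) - 2) ^ 2 / (2 * D))) with hq
    set Δ : ℕ := k + 1 + D with hΔ
    have hq0 : 0 < q := Real.exp_pos _
    have hΔq : (Δ : ℝ) ^ 2 * q ≤ 1 / 3 := by
      have h1 : ((Δ : ℕ) : ℝ) = (k : ℝ) + 1 + D := by
        rw [hΔ]
        push_cast
        ring
      have h2 : q * Real.exp (((k : ℝ) - 2) ^ 2 / (2 * D)) = 1 := by
        rw [hq, ← Real.exp_add, neg_add_cancel, Real.exp_zero]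
      rw [h1]
      nlinarith [mul_le_mul_of_nonneg_left hbig hq0.le]
    have hcnt := fun n => hC (PV k W) (PG k H) Δ (by omega) (pg_deg H hdeg) (w, h₀) n
    set 𝒜 : ℕ → Set (Finset (PV k W)) := fun n => {A : Finset (PV k W) |
      (w, h₀) ∈ A ∧ A.card = n ∧ ((PG k H).induce (A : Set (PV k W))).Connected} with h𝒜
    set E : Finset (PV k W) → Set (List (Fin k) × H.edgeSet → Bool) := fun A =>
      {Y | XA H Y A < -((k : ℝ) - 2) * A.card} with hE
    have hsub : {Y | ¬ Good H w h₀ Y} ⊆ ⋃ m : ℕ, ⋃ A ∈ (hcnt (m + 1)).1.toFinset, E A := by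
      intro Y hY
      have h1 : ¬ Good H w h₀ Y := hY
      rw [Good] at h1
      push Not at h1
      obtain ⟨A, a1, -, a3, a4⟩ := h1
      have h2 : A.card ≠ 0 := Finset.card_ne_zero_of_mem a1
      refine Set.mem_iUnion.2 ⟨A.card - 1, Set.mem_iUnion₂.2 ⟨A, ?_, a4⟩⟩
      rw [Set.Finite.mem_toFinset]
      exact ⟨a1, by omega, a3⟩
    have hstep : ∀ m : ℕ, unif (List (Fin k) × H.edgeSet)
        (⋃ A ∈ (hcnt (m + 1)).1.toFinset, E A) ≤ ENNReal.ofReal ((1 / 3) ^ (m + 1)) := by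
      intro m
      refine (measure_biUnion_finset_le _ _).trans ?_
      have h1 : ∀ A ∈ (hcnt (m + 1)).1.toFinset, unif (List (Fin k) × H.edgeSet) (E A) ≤
          ENNReal.ofReal (q ^ (m + 1)) := by
        intro A hA
        rw [Set.Finite.mem_toFinset] at hA
        have h2 := bad_bound H hD hdeg hk A
        rw [hA.2.1] at h2
        have h3 : E A = {Y | XA H Y A < -((k : ℝ) - 2) * ((m + 1 : ℕ) : ℝ)} := by
          rw [hE]
          beta_reduce
          rw [hA.2.1]
        rw [h3]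
        exact h2
      refine (Finset.sum_le_card_nsmul _ _ _ h1).trans ?_
      have h4 : ((hcnt (m + 1)).1.toFinset.card : ℝ) ≤ (Δ : ℝ) ^ (2 * (m + 1)) := by
        have h5 := (hcnt (m + 1)).2
        rw [Set.ncard_eq_toFinset_card _ (hcnt (m + 1)).1] at h5
        exact_mod_cast h5
      rw [nsmul_eq_mul, ← ENNReal.ofReal_natCast, ← ENNReal.ofReal_mul (Nat.cast_nonneg _)]
      apply ENNReal.ofReal_le_ofReal
      calc ((hcnt (m + 1)).1.toFinset.card : ℝ) * q ^ (m + 1)
          ≤ (Δ : ℝ) ^ (2 * (m + 1)) * q ^ (m + 1) := by gcongr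
        _ = ((Δ : ℝ) ^ 2 * q) ^ (m + 1) := by rw [mul_pow, pow_mul]
        _ ≤ (1 / 3) ^ (m + 1) := pow_le_pow_left₀ (by positivity) hΔq _
    refine (measure_mono hsub).trans ((measure_iUnion_le _).trans
      ((ENNReal.tsum_le_tsum hstep).trans ?_))
    have hs : Summable fun m : ℕ => ((1 : ℝ) / 3) ^ (m + 1) := by
      have h1 : Summable fun m : ℕ => ((1 : ℝ) / 3) ^ m :=
        summable_geometric_of_lt_one (by norm_num) (by norm_num)
      exact (h1.mul_right (1 / 3)).congr fun m => by rw [pow_succ]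
    rw [← ENNReal.ofReal_tsum_of_nonneg (fun m => by positivity) hs]
    have h6 : ∑' m : ℕ, ((1 : ℝ) / 3) ^ (m + 1) = 1 / 2 := by
      have h7 : ∀ m : ℕ, ((1 : ℝ) / 3) ^ (m + 1) = (1 / 3) ^ m * (1 / 3) := fun m => pow_succ _ _
      rw [tsum_congr h7, tsum_mul_right,
        tsum_geometric_of_lt_one (by norm_num) (by norm_num)]
      norm_num
    rw [h6, ENNReal.ofReal_div_of_pos (by norm_num)]
    norm_num

end Pool.Agent.N42.EA
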